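import Pool.Agent.P8H46.BS.Stm

/-!
Project BS, packages SLICE, COUNT, GATES, LINFORM (helper53).
-/

set_option autoImplicit false

namespace Pool.Agent.P8H53.BS

open Finset Pool.Agent.P8H46.BS

theorem slice : S_SLICE := by
  intro n J lam o v
  have key : ∀ j : Fin J, ∃ F : Finset (Fin n), (∀ i ∈ F, lam i = j) ∧
      F.card = ((siz lam j : ℤ) - 2 * (cnt lam o v j : ℤ)).natAbs ∧
      ((2 * cnt lam o v j ≤ siz lam j ∧ ∀ i ∈ F, v i = o i) ∨
        (siz lam j < 2 * cnt lam o v j ∧ ∀ i ∈ F, v i ≠ o i)) := by
    intro j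
    have hsum : (univ.filter (fun i => lam i = j ∧ v i ≠ o i)).card +
        (univ.filter (fun i => lam i = j ∧ ¬ v i ≠ o i)).card =
        (univ.filter (fun i => lam i = j)).card := by
      rw [← filter_filter, ← filter_filter]
      exact card_filter_add_card_filter_not _
    by_cases h : 2 * cnt lam o v j ≤ siz lam j
    · obtain ⟨F, hF, hFc⟩ := exists_subset_card_eq (s := univ.filter (fun i => lam i = j ∧
        ¬ v i ≠ o i)) (n := siz lam j - 2 * cnt lam o v j) (by
          unfold siz cnt at *; omega)
      refine ⟨F, fun i hi => (mem_filter.1 (hF hi)).2.1, by rw [hFc]; omega, Or.inl ⟨h, fun i hi => ?_⟩⟩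
      exact not_not.1 (mem_filter.1 (hF hi)).2.2
    · obtain ⟨F, hF, hFc⟩ := exists_subset_card_eq (s := univ.filter (fun i => lam i = j ∧
        v i ≠ o i)) (n := 2 * cnt lam o v j - siz lam j) (by
          unfold siz cnt at *; omega)
      refine ⟨F, fun i hi => (mem_filter.1 (hF hi)).2.1, by rw [hFc]; omega,
        Or.inr ⟨by omega, fun i hi => ?_⟩⟩
      exact (mem_filter.1 (hF hi)).2.2
  choose F hF1 hF2 hF3 using key
  obtain ⟨G, hmem⟩ : ∃ G : Finset (Fin n), ∀ i, i ∈ G ↔ i ∈ F (lam i) :=
    ⟨univ.filter (fun i => i ∈ F (lam i)), fun i => by simp⟩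
  have hfib : ∀ j, G.filter (fun i => lam i = j) = F j := by
    intro j
    ext i
    rw [mem_filter, hmem]
    constructor
    · rintro ⟨h1, h2⟩
      rwa [h2] at h1
    · intro h
      have := hF1 j i h
      exact ⟨by rwa [this], this⟩
  have hout : ∀ j, (univ.filter (fun i => i ∉ G ∧ lam i = j)).card + (F j).card = siz lam j := by
    intro j
    rw [← hfib j, siz, add_comm]
    rw [← card_filter_add_card_filter_not (s := univ.filter (fun i => lam i = j))
      (fun i => i ∈ G)]
    congr 2
    · ext i; simp [and_comm]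
    · ext i; simp [and_comm]
  have hcle : ∀ j, cnt lam o v j ≤ siz lam j := by
    intro j
    exact card_le_card (fun i hi => by
      rw [mem_filter] at hi ⊢
      exact ⟨hi.1, hi.2.1⟩)
  refine ⟨G, ?_, ?_, ?_⟩
  · rw [card_eq_sum_card_fiberwise (f := lam) (t := univ) (fun _ _ => mem_univ _), imb]
    exact sum_congr rfl fun j _ => by rw [hfib j, hF2 j]
  · intro j
    have h1 := hout j
    have h2 := hF2 j
    have h3 := hcle j
    rw [Nat.even_iff]
    omega
  · intro y hy j
    obtain ⟨hy1, hy2⟩ := hy
    have h1 := hout j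
    have h2 := hF2 j
    have h3 := hcle j
    have h4 := hy2 j
    have h5 : cnt lam o y j = ((F j).filter (fun i => v i ≠ o i)).card +
        (univ.filter (fun i => i ∉ G ∧ lam i = j ∧ y i ≠ o i)).card := by
      rw [cnt, ← card_filter_add_card_filter_not (s := univ.filter (fun i => lam i = j ∧ y i ≠ o i))
        (fun i => i ∈ G)]
      congr 2
      · ext i
        rw [mem_filter, mem_filter, mem_filter]
        constructor
        · rintro ⟨⟨_, h6, h7⟩, h8⟩
          rw [hy1 i h8] at h7
          rw [hmem, h6] at h8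
          exact ⟨h8, h7⟩
        · rintro ⟨h6, h7⟩
          have h8 := hF1 j i h6
          have h9 : i ∈ G := by rw [hmem, h8]; exact h6
          rw [← hy1 i h9] at h7
          exact ⟨⟨mem_univ _, h8, h7⟩, h9⟩
      · ext i
        simp only [mem_filter, mem_univ, true_and]
        tauto
    rcases hF3 j with ⟨h6, h7⟩ | ⟨h6, h7⟩
    · have h8 : (F j).filter (fun i => v i ≠ o i) = ∅ :=
        filter_eq_empty_iff.2 fun i hi => not_not.2 (h7 i hi)
      rw [h8, card_empty] at h5
      omega
    · have h8 : (F j).filter (fun i => v i ≠ o i) = F j := filter_true_of_mem h7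
      rw [h8] at h5
      omega

/-! ### COUNT -/

/-- the sign -/
def sg (a b : ZMod 2) : ℤ := if a = b then 1 else -1

lemma sg_sum {n J : ℕ} (lam : Fin n → Fin J) (o y : V n) (j : Fin J) :
    (siz lam j : ℤ) - 2 * (cnt lam o y j : ℤ) =
      ∑ i ∈ univ.filter (fun i => lam i = j), sg (y i) (o i) := by
  unfold sg
  rw [sum_ite, sum_const, sum_const, filter_filter, filter_filter, siz, cnt,
    ← card_filter_add_card_filter_not (s := univ.filter (fun i => lam i = j))
      (fun i => y i = o i), filter_filter, filter_filter]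
  simp only [nsmul_eq_mul, ne_eq]
  push_cast
  ring

lemma pow_natAbs_le (w : ℝ) (hw : 1 ≤ w) (k : ℤ) : w ^ k.natAbs ≤ w ^ k + w ^ (-k) := by
  have hw0 : 0 < w := by linarith
  rcases Int.natAbs_eq k with h | h
  · rw [h, Int.natAbs_natCast, zpow_natCast]
    have : 0 < w ^ (-(k.natAbs : ℤ)) := zpow_pos hw0 _
    linarith
  · rw [h, Int.natAbs_neg, Int.natAbs_natCast, neg_neg, zpow_natCast]
    have : 0 < w ^ (-(k.natAbs : ℤ)) := zpow_pos hw0 _
    linarith

lemma zpow_sum' {ι : Type*} [DecidableEq ι] (w : ℝ) (hw : w ≠ 0) (s : Finset ι) (f : ι → ℤ) :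
    w ^ (∑ i ∈ s, f i) = ∏ i ∈ s, w ^ f i := by
  induction s using Finset.induction_on with
  | empty => simp
  | insert a s ha ih => rw [sum_insert ha, prod_insert ha, zpow_add₀ hw, ih]

/-- signs from booleans -/
def bs (b : Bool) : ℤ := if b then 1 else -1

lemma two_vals (w : ℝ) (b : Bool) (c : ZMod 2) :
    ∑ a : ZMod 2, w ^ (bs b * sg a c) = w + w⁻¹ := by
  have h : ∀ c : ZMod 2, c = 0 ∨ c = 1 := by decide
  have hu : (univ : Finset (ZMod 2)) = {0, 1} := rfl
  have h01 : (0 : ZMod 2) ≠ 1 := by decide
  rw [hu, sum_pair h01]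
  rcases h c with rfl | rfl <;> cases b <;> simp [bs, sg, add_comm]

theorem count : S_COUNT := by
  intro n J lam o w hw
  have hw0 : 0 < w := by linarith
  have h1 : ∀ y : V n, w ^ (imb lam o y) ≤
      ∑ e : Fin J → Bool, ∏ i, w ^ (bs (e (lam i)) * sg (y i) (o i)) := by
    intro y
    rw [imb, ← prod_pow_eq_pow_sum]
    have h2 : ∏ j, w ^ ((siz lam j : ℤ) - 2 * (cnt lam o y j : ℤ)).natAbs ≤
        ∏ j, ∑ b : Bool, w ^ (bs b * ((siz lam j : ℤ) - 2 * (cnt lam o y j : ℤ))) := by
      refine prod_le_prod (fun j _ => by positivity) fun j _ => ?_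
      refine (pow_natAbs_le w hw _).trans (le_of_eq ?_)
      rw [Fintype.sum_bool]
      simp [bs]
    refine h2.trans (le_of_eq ?_)
    rw [prod_univ_sum, Fintype.piFinset_univ]
    refine sum_congr rfl fun e _ => ?_
    rw [← prod_fiberwise_of_maps_to (s := univ) (t := univ) (g := lam) (fun _ _ => mem_univ _)]
    refine prod_congr rfl fun j _ => ?_
    rw [sg_sum, mul_sum, zpow_sum' w hw0.ne']
    refine prod_congr rfl fun i hi => ?_
    rw [(mem_filter.1 hi).2]
  refine (sum_le_sum fun y _ => h1 y).trans (le_of_eq ?_)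
  rw [sum_comm]
  have h2 : ∀ e : Fin J → Bool, ∑ y : V n, ∏ i, w ^ (bs (e (lam i)) * sg (y i) (o i)) =
      (w + w⁻¹) ^ n := by
    intro e
    have h3 := prod_univ_sum (fun _ : Fin n => (univ : Finset (ZMod 2)))
      (fun i a => w ^ (bs (e (lam i)) * sg a (o i)))
    rw [Fintype.piFinset_univ] at h3
    rw [← h3]
    simp only [two_vals, prod_const, card_univ, Fintype.card_fin]
  simp only [h2, sum_const, card_univ, Fintype.card_fun, Fintype.card_bool, Fintype.card_fin,
    nsmul_eq_mul]
  push_cast
  rfl

/-! ### GATES -/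

theorem gates : S_GATES := by
  intro n k T o Φ
  have hcard : Fintype.card (Fin k → Fin 3) = 3 ^ k := by simp
  let E : (Fin k → Fin 3) ≃ Fin (3 ^ k) := Fintype.equivFinOfCardEq hcard
  let cd : Fin n → (Fin k → Fin 3) := fun i t => if i ∈ T t then (if o t i = 0 then 1 else 2) else 0
  have h01 : ∀ c : ZMod 2, c = 0 ∨ c = 1 := by decide
  refine ⟨0, fun i => E (cd i), fun y y' h => ?_⟩
  have key : ∀ y : V n, ∀ t, ((T t).filter (fun i => y i ≠ o t i)).card =
      ∑ c : Fin (3 ^ k), (if (E.symm c) t = 0 then 0 else if (E.symm c) t = 1 then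
        cnt (fun i => E (cd i)) 0 y c else
          siz (fun i => E (cd i)) c - cnt (fun i => E (cd i)) 0 y c) := by
    intro y t
    rw [card_eq_sum_card_fiberwise (f := fun i => E (cd i)) (t := univ) (fun _ _ => mem_univ _)]
    refine sum_congr rfl fun c _ => ?_
    obtain ⟨c', rfl⟩ := E.surjective c
    rw [Equiv.symm_apply_apply]
    by_cases h0 : c' t = 0
    · rw [if_pos h0, card_eq_zero, filter_eq_empty_iff]
      intro i hi hc
      have h1 : cd i = c' := E.injective hc
      have h2 : cd i t = 0 := by rw [h1, h0]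
      have h3 : i ∈ T t := (mem_filter.1 hi).1
      simp only [cd, if_pos h3] at h2
      split_ifs at h2 <;> simp at h2
    · rw [if_neg h0]
      by_cases h1 : c' t = 1
      · rw [if_pos h1, cnt]
        congr 1
        ext i
        simp only [mem_filter, mem_univ, true_and, Pi.zero_apply]
        constructor
        · rintro ⟨⟨h3, h4⟩, h5⟩
          refine ⟨h5, ?_⟩
          have h6 : cd i t = 1 := by rw [E.injective h5, h1]
          simp only [cd, if_pos h3] at h6
          split_ifs at h6 with h7
          · rwa [h7] at h4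
          · simp at h6
        · rintro ⟨h5, h4⟩
          have h6 : cd i t = 1 := by rw [E.injective h5, h1]
          simp only [cd] at h6
          split_ifs at h6 with h7 h8
          · exact ⟨⟨h7, by rwa [h8]⟩, h5⟩
          · simp at h6
          · simp at h6
      · rw [if_neg h1]
        have h2 : c' t = 2 := by
          have : ∀ x : Fin 3, x ≠ 0 → x ≠ 1 → x = 2 := by decide
          exact this _ h0 h1
        have h9 : siz (fun i => E (cd i)) (E c') = cnt (fun i => E (cd i)) 0 y (E c') +
            (univ.filter (fun i => E (cd i) = E c' ∧ ¬ y i ≠ (0 : V n) i)).card := by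
          rw [siz, cnt, ← filter_filter, ← filter_filter]
          exact (card_filter_add_card_filter_not _).symm
        rw [h9, Nat.add_sub_cancel_left]
        congr 1
        ext i
        simp only [mem_filter, mem_univ, true_and, Pi.zero_apply, not_not]
        constructor
        · rintro ⟨⟨h3, h4⟩, h5⟩
          refine ⟨h5, ?_⟩
          have h6 : cd i t = 2 := by rw [E.injective h5, h2]
          simp only [cd, if_pos h3] at h6
          split_ifs at h6 with h7
          · simp at h6
          · have h8 : o t i = 1 := (h01 _).resolve_left h7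
            rw [h8] at h4
            exact (h01 _).resolve_right h4
        · rintro ⟨h5, h4⟩
          have h6 : cd i t = 2 := by rw [E.injective h5, h2]
          simp only [cd] at h6
          split_ifs at h6 with h7 h8
          · simp at h6
          · refine ⟨⟨h7, ?_⟩, h5⟩
            rw [h4, (h01 _).resolve_left h8]
            decide
          · simp at h6
  simp only [Set.mem_ofPred_eq, key]
  simp only [h]

/-! ### LINFORM -/

theorem linform : S_LINFORM := by
  intro n J M _ _ w B hJ
  have h01 : ∀ c : ZMod 2, c = 1 ↔ c ≠ 0 := by decide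
  let e : (univ.image w) → Fin J := fun x => Fin.castLE hJ ((univ.image w).equivFin x)
  have he : Function.Injective e := fun x y h => by
    have : (univ.image w).equivFin x = (univ.image w).equivFin y := by
      have := congrArg Fin.val h
      exact Fin.ext this
    exact (Equiv.injective _) this
  let lam : Fin n → Fin J := fun i => e ⟨w i, mem_image_of_mem w (mem_univ i)⟩
  have hlam : ∀ i i', lam i = lam i' → w i = w i' := fun i i' h => by
    have := congrArg Subtype.val (he h)
    exact this
  classical
  let W : Fin J → M := fun j => if h : ∃ i, lam i = j then w h.choose else 0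
  have hW : ∀ i, W (lam i) = w i := by
    intro i
    have h : ∃ i', lam i' = lam i := ⟨i, rfl⟩
    simp only [W, dif_pos h]
    exact hlam _ _ h.choose_spec
  refine ⟨0, lam, fun y y' h => ?_⟩
  have key : ∀ y : V n, ∑ i, (if y i = 1 then w i else 0) = ∑ j, cnt lam 0 y j • W j := by
    intro y
    rw [← sum_fiberwise_of_maps_to (s := univ) (t := univ) (g := lam) (fun _ _ => mem_univ _)]
    refine sum_congr rfl fun j _ => ?_
    rw [← sum_filter, filter_filter, cnt, ← sum_const]
    refine sum_congr ?_ fun i hi => ?_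
    · ext i
      simp only [mem_filter, mem_univ, true_and, Pi.zero_apply, h01]
    · rw [← (mem_filter.1 hi).2.1, hW]
  simp only [Set.mem_ofPred_eq, key, h]

end Pool.Agent.P8H53.BS
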